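import Mathlib

/-!
# RT3: definitions (stable flatness for residually torsion-free nilpotent groups)

Paper: team-store MP_984acc_RT3_h92.md.  Everything over `ZMod 2`; `D` is a division ring with a homomorphism
`ρ : K →* Dˣ`.
-/

set_option autoImplicit false

open scoped TensorProduct

namespace RT3

section ring
variable {K : Type} [Group K] {D : Type} [DivisionRing D] (ρ : K →* Dˣ)

/-- the image of a group element -/
def r (g : K) : D := ((ρ g : Dˣ) : D)

/-- the division closure of a subgroup -/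
def cl (N : Subgroup K) : Subfield D := Subfield.closure ((fun g : K => r ρ g) '' (N : Set K))

/-- Laurent polynomials in `t` with coefficients in the division closure of `N` -/
def Pol (N : Subgroup K) (t : K) : AddSubgroup D :=
  AddSubgroup.closure {x | ∃ s ∈ cl ρ N, ∃ m : ℤ, x = s * r ρ (t ^ m)}

/-- `N ≤ H` are normal subgroups of `K`, `H / N` is infinite cyclic, central in `K / N`, generated by `t` -/
structure Step (H N : Subgroup K) (t : K) : Prop where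
  norH : H.Normal
  norN : N.Normal
  le : N ≤ H
  mem : t ∈ H
  gen : ∀ g ∈ H, ∃ m : ℤ, g * t ^ (-m) ∈ N
  inf : ∀ m : ℤ, t ^ m ∈ N → m = 0
  cen : ∀ g : K, g * t * g⁻¹ * t⁻¹ ∈ N

variable [Algebra (ZMod 2) D]

/-- the constant coefficient of the Laurent expansion in `t` of the elements of `cl ρ H` (junk outside of `cl ρ H`);
the coefficient of `t ^ m` of `x` is `κ (x * r ρ (t ^ (-m)))` -/
structure Kap (κ : D →ₗ[ZMod 2] D) (H N : Subgroup K) (t : K) : Prop where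
  mem : ∀ x ∈ cl ρ H, κ x ∈ cl ρ N
  left : ∀ s ∈ cl ρ N, ∀ x ∈ cl ρ H, κ (s * x) = s * κ x
  right : ∀ s ∈ cl ρ N, ∀ x ∈ cl ρ H, κ (x * s) = κ x * s
  conj : ∀ g : K, ∀ x ∈ cl ρ H, κ (r ρ g * x * r ρ g⁻¹) = r ρ g * κ x * r ρ g⁻¹
  bdd : ∀ x ∈ cl ρ H, ∃ M : ℤ, ∀ m < M, κ (x * r ρ (t ^ (-m))) = 0
  one : κ 1 = 1
  pow : ∀ m : ℤ, m ≠ 0 → κ (r ρ (t ^ m)) = 0
  mul : ∀ x ∈ cl ρ H, ∀ y ∈ cl ρ H, ∀ S : Finset ℤ,
    (∀ j, j ∉ S → κ (x * r ρ (t ^ (-j))) * κ (r ρ (t ^ j) * y) = 0) →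
      κ (x * y) = ∑ j ∈ S, κ (x * r ρ (t ^ (-j))) * κ (r ρ (t ^ j) * y)
  denL : ∀ x ∈ cl ρ H, ∃ p ∈ Pol ρ N t, p ≠ 0 ∧ p * x ∈ Pol ρ N t
  denR : ∀ x ∈ cl ρ H, ∃ q ∈ Pol ρ N t, q ≠ 0 ∧ x * q ∈ Pol ρ N t

/-- a chain of normal subgroups with infinite cyclic central quotients (it may stop at the trivial group), with the
coefficient maps -/
structure Chain where
  G : ℕ → Subgroup K
  t : ℕ → K
  κ : ℕ → D →ₗ[ZMod 2] D
  top : G 0 = ⊤
  inter : ∀ g, (∀ i, g ∈ G i) → g = 1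
  step : ∀ i, G i ≠ ⊥ → Step (G i) (G (i + 1)) (t i)
  bot : ∀ i, G i = ⊥ → G (i + 1) = ⊥
  kap : ∀ i, G i ≠ ⊥ → Kap ρ (κ i) (G i) (G (i + 1)) (t i)

/-- linear combinations of elements of the subgroup -/
def mon (N : Subgroup K) : Submodule (ZMod 2) D := Submodule.span (ZMod 2) ((fun g : K => r ρ g) '' (N : Set K))

end ring

section acc
variable {K : Type} [Group K] {D : Type} [DivisionRing D] [Algebra (ZMod 2) D] {ρ : K →* Dˣ}

/-- accessible elements: the tree of the iterated coefficients is well founded, with leaves in the group ring -/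
inductive AccE (C : Chain ρ) : ℕ → D → Prop
  | base (i : ℕ) (x : D) (h : x ∈ mon ρ (C.G i)) : AccE C i x
  | step (i : ℕ) (x : D) (hi : C.G i ≠ ⊥) (hx : x ∈ cl ρ (C.G i))
      (h : ∀ g h : K, g * h ∈ C.G i → AccE C (i + 1) (C.κ i (r ρ g * x * r ρ h))) : AccE C i x

end acc

section chains
variable {K : Type} [Group K] {D : Type} [DivisionRing D] [Algebra (ZMod 2) D] (ρ : K →* Dˣ)

/-- the action `g (a ⊗ b) = a g⁻¹ ⊗ g b` -/
noncomputable def τ (g : K) : D ⊗[ZMod 2] D →ₗ[ZMod 2] D ⊗[ZMod 2] D :=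
  TensorProduct.map (LinearMap.mulRight (ZMod 2) (r ρ g⁻¹)) (LinearMap.mulLeft (ZMod 2) (r ρ g))

open Classical in
/-- the equivariant function on `N v` with value `y` at `v`, in the component `c` -/
noncomputable def gen (N : Subgroup K) {α : Type} (v : K) (c : α) (y : D ⊗[ZMod 2] D) : K → α → D ⊗[ZMod 2] D :=
  fun x a => if x * v⁻¹ ∈ N ∧ a = c then τ ρ (x * v⁻¹) y else 0

/-- the chains of `N` -/
noncomputable def E (N : Subgroup K) (α : Type) : Submodule (ZMod 2) (K → α → D ⊗[ZMod 2] D) :=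
  Submodule.span (ZMod 2) {f | ∃ (v : K) (c : α), ∃ a ∈ cl ρ N, ∃ b ∈ cl ρ N, f = gen ρ N v c (a ⊗ₜ[ZMod 2] b)}

/-- the chains of `N` with monomial coefficients -/
noncomputable def E0 (N : Subgroup K) (α : Type) : Submodule (ZMod 2) (K → α → D ⊗[ZMod 2] D) :=
  Submodule.span (ZMod 2) {f | ∃ (v : K) (c : α), ∃ g ∈ N, ∃ h ∈ N, f = gen ρ N v c (r ρ g ⊗ₜ[ZMod 2] r ρ h)}

/-- the boundary map given by a matrix -/
noncomputable def bd {Y : Type} [AddCommGroup Y] [Module (ZMod 2) Y] {α β : Type} [Fintype α]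
    (P : Matrix α β (MonoidAlgebra ℤ K)) : (K → α → Y) →ₗ[ZMod 2] (K → β → Y) where
  toFun f x b := ∑ a, ∑ g ∈ (P a b).coeff.support, ((P a b).coeff g : ZMod 2) • f (x * g⁻¹) a
  map_add' f f' := by
    funext x b
    simp only [Pi.add_apply, smul_add, Finset.sum_add_distrib]
  map_smul' c f := by
    funext x b
    simp only [Pi.smul_apply, RingHom.id_apply, Finset.smul_sum]
    refine Finset.sum_congr rfl fun a _ => Finset.sum_congr rfl fun g _ => ?_
    rw [smul_comm]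

/-- a linear map applied to the values -/
def pw {Y Y' : Type} [AddCommGroup Y] [Module (ZMod 2) Y] [AddCommGroup Y'] [Module (ZMod 2) Y'] {α : Type}
    (T : Y →ₗ[ZMod 2] Y') : (K → α → Y) →ₗ[ZMod 2] (K → α → Y') where
  toFun f x a := T (f x a)
  map_add' f f' := by
    funext x a
    simp only [Pi.add_apply, map_add]
  map_smul' c f := by
    funext x a
    simp only [Pi.smul_apply, RingHom.id_apply, map_smul]

/-- the coefficient maps on the tensor product -/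
noncomputable def TT (κ : D →ₗ[ZMod 2] D) (t : K) (j e : ℤ) : D ⊗[ZMod 2] D →ₗ[ZMod 2] D ⊗[ZMod 2] D :=
  TensorProduct.map (κ.comp (LinearMap.mulLeft (ZMod 2) (r ρ (t ^ j))))
    (κ.comp (LinearMap.mulRight (ZMod 2) (r ρ (t ^ (-e)))))

variable {ρ} in
/-- accessible chains -/
inductive AccF (C : Chain ρ) {α : Type} : ℕ → (K → α → D ⊗[ZMod 2] D) → Prop
  | base (i : ℕ) (f : K → α → D ⊗[ZMod 2] D) (h : f ∈ E0 ρ (C.G i) α) : AccF C i f
  | step (i : ℕ) (f : K → α → D ⊗[ZMod 2] D) (hi : C.G i ≠ ⊥)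
      (h : ∀ j e : ℤ, AccF C (i + 1) (pw (TT ρ (C.κ i) (C.t i) j e) f)) : AccF C i f

end chains

end RT3
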