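import Pool.Agent.RT3.Defs
import Pool.Agent.SQ.T2.Final

/-!
# RT3: statements of the modules
-/

set_option autoImplicit false

open scoped TensorProduct

namespace RT3

open Singer SQ

/-- value data of one level, with the sign of `t` -/
structure Lvl {K : Type} [Group K] {D : Type} [DivisionRing D] (ρ : K →* Dˣ) (N : Subgroup K) (t : K) where
  Om : Type
  [lo : LinearOrder Om]
  [act : MulAction K Om]
  mono : ∀ (g : K) (a b : Om), a ≤ b → g • a ≤ g • b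
  pos : ∀ a : Om, a < t • a
  v : D → Om
  v_add : ∀ x y : D, x ≠ 0 → y ≠ 0 → x + y ≠ 0 → min (v x) (v y) ≤ v (x + y)
  v_act : ∀ (g : K) (x : D), x ≠ 0 → v (r ρ g * x) = g • v x
  v_sub : ∀ c ∈ cl ρ N, c ≠ 0 → ∀ x : D, x ≠ 0 → v (c * x) = v x

attribute [instance] Lvl.lo Lvl.act

section
variable {K : Type} [Group K] {D : Type} [DivisionRing D] [Algebra (ZMod 2) D]

/-- row KAP1: the Ore property, fractions on the left -/
def StmtFrac : Prop :=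
  ∀ (K : Type) [Group K] (D : Type) [DivisionRing D] [Algebra (ZMod 2) D] (ρ : K →* Dˣ) (H N : Subgroup K) (t : K),
    Step H N t → Lvl ρ N t → ∀ x ∈ cl ρ H, ∃ p ∈ Pol ρ N t, p ≠ 0 ∧ p * x ∈ Pol ρ N t

/-- row KAP2: the coefficient map -/
def StmtKap : Prop :=
  ∀ (K : Type) [Group K] (D : Type) [DivisionRing D] [Algebra (ZMod 2) D] [StarRing D] (ρ : K →* Dˣ),
    (∀ g, star (r ρ g) = r ρ g⁻¹) → ∀ (H N : Subgroup K) (t : K), Step H N t → Lvl ρ N t →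
      ∃ κ : D →ₗ[ZMod 2] D, Kap ρ κ H N t

/-- row ACC: all elements are accessible -/
def StmtAcc : Prop :=
  ∀ (K : Type) [Group K] (D : Type) [DivisionRing D] [Algebra (ZMod 2) D] (ρ : K →* Dˣ) (C : Chain ρ) (i : ℕ) (x : D),
    x ∈ cl ρ (C.G i) → AccE C i x

/-- row T: the coefficient maps on the generators -/
def StmtT : Prop :=
  ∀ (K : Type) [Group K] (D : Type) [DivisionRing D] [Algebra (ZMod 2) D] (ρ : K →* Dˣ) (κ : D →ₗ[ZMod 2] D)
    (H N : Subgroup K) (t : K), Step H N t → Kap ρ κ H N t → ∀ (α : Type) (v : K) (c : α), ∀ a ∈ cl ρ H, ∀ b ∈ cl ρ H,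
      ∀ j e : ℤ, ∃ S : Finset ℤ, pw (TT ρ κ t j e) (gen ρ H v c (a ⊗ₜ[ZMod 2] b)) =
        ∑ m ∈ S, gen ρ N (t ^ m * v) c
          ((κ (r ρ (t ^ j) * a * r ρ (t ^ (-m)))) ⊗ₜ[ZMod 2] (κ (r ρ (t ^ m) * b * r ρ (t ^ (-e)))))

/-- row F: all chains are accessible (may use `StmtAcc`, `StmtT`) -/
def StmtF : Prop :=
  ∀ (K : Type) [Group K] (D : Type) [DivisionRing D] [Algebra (ZMod 2) D] (ρ : K →* Dˣ) (C : Chain ρ) (α : Type) (i : ℕ)
    (f : K → α → D ⊗[ZMod 2] D), f ∈ E ρ (C.G i) α → AccF C i f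

/-- row CLA: a chain all of whose coefficients are boundaries is a boundary (may use `StmtT`) -/
def StmtCla : Prop :=
  ∀ (K : Type) [Group K] (D : Type) [DivisionRing D] [Algebra (ZMod 2) D] (ρ : K →* Dˣ) (κ : D →ₗ[ZMod 2] D)
    (H N : Subgroup K) (t : K), Step H N t → Kap ρ κ H N t → ∀ (α β : Type) [Fintype β]
    (P : Matrix β α (MonoidAlgebra ℤ K)) (f : K → α → D ⊗[ZMod 2] D), f ∈ E ρ H α →
      (∀ j e : ℤ, ∃ u ∈ E ρ N β, bd P u = pw (TT ρ κ t j e) f) → ∃ u ∈ E ρ H β, bd P u = f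

/-- row BAS: the cycles with monomial coefficients are boundaries -/
def StmtBas : Prop :=
  ∀ (K : Type) [Group K] (D : Type) [DivisionRing D] [Algebra (ZMod 2) D] (ρ : K →* Dˣ),
    LinearIndependent (ZMod 2) (fun g : K => r ρ g) → ∀ (N : Subgroup K) (R : FinRes K) (j : ℕ)
    (f : K → R.ι (j + 1) → D ⊗[ZMod 2] D), f ∈ E0 ρ N (R.ι (j + 1)) → bd (R.d j) f = 0 →
      ∃ u ∈ E0 ρ N (R.ι (j + 2)), bd (R.d (j + 1)) u = f

/-- row EXH: the homology with coefficients in `D ⊗ D` vanishes (may use all of the above) -/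
def StmtExh : Prop :=
  ∀ (K : Type) [Group K] (D : Type) [DivisionRing D] [Algebra (ZMod 2) D] [StarRing D] (ρ : K →* Dˣ),
    (∀ g, star (r ρ g) = r ρ g⁻¹) → cl ρ (⊤ : Subgroup K) = ⊤ →
    LinearIndependent (ZMod 2) (fun g : K => r ρ g) → Chain ρ →
    ∀ (R : FinRes K) (j : ℕ), ExH (diag ρ) R (j + 1)

/-- row CLS: from a division ring to the division closure of the group -/
def StmtCls : Prop :=
  ∀ (K : Type) [Group K] (D : Type) [DivisionRing D] [Algebra (ZMod 2) D] [StarRing D] (ρ : K →* Dˣ),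
    (∀ g, star (r ρ g) = r ρ g⁻¹) → LinearIndependent (ZMod 2) (fun g : K => r ρ g) →
    ∃ (D' : Type) (_ : DivisionRing D') (_ : Algebra (ZMod 2) D') (_ : StarRing D') (ρ' : K →* D'ˣ),
      (∀ g, star (r ρ' g) = r ρ' g⁻¹) ∧ cl ρ' (⊤ : Subgroup K) = ⊤ ∧
      LinearIndependent (ZMod 2) (fun g : K => r ρ' g) ∧
      (∀ (N : Subgroup K) (t : K), Lvl ρ N t → Nonempty (Lvl ρ' N t)) ∧
      ∀ (R : FinRes K) (i : ℕ), Ex (lmul ρ') R i → Ex (lmul ρ) R i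

/-- row CHN: the chain of a residually unitriangular group and its levels -/
def StmtChn : Prop :=
  ∀ (K : Type) [Group K] [Countable K], T2.ResUT K ⊥ →
    ∃ (A : T2.Apx K) (G : ℕ → Subgroup K) (t : ℕ → K), G 0 = ⊤ ∧ (∀ g, (∀ i, g ∈ G i) → g = 1) ∧
      (∀ i, G i ≠ ⊥ → Step (G i) (G (i + 1)) (t i)) ∧ (∀ i, G i = ⊥ → G (i + 1) = ⊥) ∧
      ∀ i, G i ≠ ⊥ → Nonempty (Lvl (Ultra.hom A.seq.u : K →* (T2.UDS A.seq)ˣ) (G (i + 1)) (t i))

/-- row FIN: the theorem -/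
def StmtFin : Prop :=
  ∀ (Γ : Type) [Group Γ] (H : Subgroup Γ) [H.FiniteIndex], T2.ResUT H ⊥ → ∀ (n : ℕ), IsPD n Γ ∨ IsPD n H →
    ∀ (R : FinRes Γ) (i : ℕ), 2 * i ≠ n → R.VanE i

end

end RT3
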