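import Pool.Agent.RT3.Defs

/-!
# RT3, row T: basic lemmas on the generators, the boundary maps and the coefficient maps
-/

set_option autoImplicit false

open scoped TensorProduct

namespace RT3

section r
variable {K : Type} [Group K] {D : Type} [DivisionRing D] (ρ : K →* Dˣ)

@[simp] theorem r_one : r ρ 1 = 1 := by rw [r, map_one, Units.val_one]

theorem r_mul (g h : K) : r ρ (g * h) = r ρ g * r ρ h := by rw [r, map_mul, Units.val_mul]; rfl

theorem r_ne (g : K) : r ρ g ≠ 0 := Units.ne_zero _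

@[simp] theorem r_mul_inv (g : K) : r ρ g * r ρ g⁻¹ = 1 := by rw [← r_mul, mul_inv_cancel, r_one]

@[simp] theorem r_inv_mul (g : K) : r ρ g⁻¹ * r ρ g = 1 := by rw [← r_mul, inv_mul_cancel, r_one]

theorem r_inv (g : K) : r ρ g⁻¹ = (r ρ g)⁻¹ := eq_inv_of_mul_eq_one_left (r_inv_mul ρ g)

theorem r_mem_cl {N : Subgroup K} {g : K} (hg : g ∈ N) : r ρ g ∈ cl ρ N :=
  Subfield.subset_closure ⟨g, hg, rfl⟩

theorem cl_mono {N H : Subgroup K} (h : N ≤ H) : cl ρ N ≤ cl ρ H :=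
  Subfield.closure_mono (Set.image_mono h)

theorem conj_mem_cl {N : Subgroup K} (hN : N.Normal) (g : K) {x : D} (hx : x ∈ cl ρ N) :
    r ρ g * x * r ρ g⁻¹ ∈ cl ρ N := by
  induction hx using Subfield.closure_induction with
  | mem x hx =>
    obtain ⟨n, hn, rfl⟩ := hx
    show r ρ g * r ρ n * r ρ g⁻¹ ∈ cl ρ N
    rw [← r_mul, ← r_mul]
    exact r_mem_cl ρ (hN.conj_mem n hn g)
  | one =>
    rw [mul_one, r_mul_inv]
    exact (cl ρ N).one_mem
  | add x y _ _ hx hy =>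
    rw [mul_add, add_mul]
    exact (cl ρ N).add_mem hx hy
  | neg x _ hx =>
    rw [mul_neg, neg_mul]
    exact (cl ρ N).neg_mem hx
  | inv x _ hx =>
    have h : r ρ g * x⁻¹ * r ρ g⁻¹ = (r ρ g * x * r ρ g⁻¹)⁻¹ := by
      rw [mul_inv_rev, mul_inv_rev, r_inv, inv_inv, mul_assoc]
    rw [h]
    exact (cl ρ N).inv_mem hx
  | mul x y _ _ hx hy =>
    have h : r ρ g * (x * y) * r ρ g⁻¹ = (r ρ g * x * r ρ g⁻¹) * (r ρ g * y * r ρ g⁻¹) := by
      simp only [mul_assoc]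
      rw [← mul_assoc (r ρ g⁻¹) (r ρ g), r_inv_mul, one_mul]
    rw [h]
    exact (cl ρ N).mul_mem hx hy

end r

section step
variable {K : Type} [Group K] {H N : Subgroup K} {t : K}

theorem Step.unique (hS : Step H N t) {w : K} {m m' : ℤ} (h : w * t ^ (-m) ∈ N) (h' : w * t ^ (-m') ∈ N) : m = m' := by
  have h1 : (w * t ^ (-m))⁻¹ * (w * t ^ (-m')) ∈ N := N.mul_mem (N.inv_mem h) h'
  have h2 : (w * t ^ (-m))⁻¹ * (w * t ^ (-m')) = t ^ (m - m') := by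
    rw [mul_inv_rev, mul_assoc, inv_mul_cancel_left, ← zpow_neg, ← zpow_add]
    congr 1
    ring
  rw [h2] at h1
  have := hS.inf _ h1
  omega

theorem Step.pow_mem (hS : Step H N t) (m : ℤ) : t ^ m ∈ H := H.zpow_mem hS.mem m

end step

section gen
variable {K : Type} [Group K] {D : Type} [DivisionRing D] [Algebra (ZMod 2) D] (ρ : K →* Dˣ)

theorem τ_tmul (g : K) (a b : D) : τ ρ g (a ⊗ₜ[ZMod 2] b) = (a * r ρ g⁻¹) ⊗ₜ[ZMod 2] (r ρ g * b) := rfl

theorem τ_one (y : D ⊗[ZMod 2] D) : τ ρ 1 y = y := by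
  induction y using TensorProduct.induction_on with
  | zero => rw [map_zero]
  | tmul a b => rw [τ_tmul, inv_one, r_one, mul_one, one_mul]
  | add y y' hy hy' => rw [map_add, hy, hy']

theorem τ_mul (g h : K) (y : D ⊗[ZMod 2] D) : τ ρ (g * h) y = τ ρ g (τ ρ h y) := by
  induction y using TensorProduct.induction_on with
  | zero => rw [map_zero, map_zero, map_zero]
  | tmul a b => rw [τ_tmul, τ_tmul, τ_tmul, mul_inv_rev, r_mul, r_mul, mul_assoc, mul_assoc]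
  | add y y' hy hy' => rw [map_add, map_add, map_add, hy, hy']

variable (N : Subgroup K) {α : Type} (v : K) (c : α)

theorem gen_of_mem {x : K} (h : x * v⁻¹ ∈ N) (y : D ⊗[ZMod 2] D) : gen ρ N v c y x c = τ ρ (x * v⁻¹) y := by
  unfold gen
  rw [if_pos ⟨h, rfl⟩]

theorem gen_of_not_mem {x : K} (h : x * v⁻¹ ∉ N) (y : D ⊗[ZMod 2] D) (a : α) : gen ρ N v c y x a = 0 := by
  unfold gen
  rw [if_neg fun h' => h h'.1]

theorem gen_of_ne {a : α} (h : a ≠ c) (y : D ⊗[ZMod 2] D) (x : K) : gen ρ N v c y x a = 0 := by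
  unfold gen
  rw [if_neg fun h' => h h'.2]

theorem gen_add (y y' : D ⊗[ZMod 2] D) : gen ρ N v c (y + y') = gen ρ N v c y + gen ρ N v c y' := by
  funext x a
  rw [Pi.add_apply, Pi.add_apply]
  unfold gen
  split_ifs
  · rw [map_add]
  · rw [add_zero]

theorem gen_smul (k : ZMod 2) (y : D ⊗[ZMod 2] D) : gen ρ N v c (k • y) = k • gen ρ N v c y := by
  funext x a
  rw [Pi.smul_apply, Pi.smul_apply]
  unfold gen
  split_ifs
  · rw [map_smul]
  · rw [smul_zero]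

/-- `gen` as a linear map in the value -/
noncomputable def genL : D ⊗[ZMod 2] D →ₗ[ZMod 2] (K → α → D ⊗[ZMod 2] D) where
  toFun y := gen ρ N v c y
  map_add' := gen_add ρ N v c
  map_smul' := gen_smul ρ N v c

theorem genL_apply (y : D ⊗[ZMod 2] D) : genL ρ N v c y = gen ρ N v c y := rfl

theorem gen_zero : gen ρ N v c 0 = 0 := (genL ρ N v c).map_zero

/-- change of the base point -/
theorem gen_translate {h : K} (hh : h ∈ N) (y : D ⊗[ZMod 2] D) :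
    gen ρ N v c (τ ρ h y) = gen ρ N (h⁻¹ * v) c y := by
  have e : ∀ x : K, x * (h⁻¹ * v)⁻¹ = x * v⁻¹ * h := fun x => by group
  funext x a
  by_cases ha : a = c
  · subst ha
    by_cases hx : x * v⁻¹ ∈ N
    · rw [gen_of_mem ρ N v a hx, gen_of_mem ρ N (h⁻¹ * v) a (by rw [e]; exact N.mul_mem hx hh), e, τ_mul ρ (x * v⁻¹) h y]
    · rw [gen_of_not_mem ρ N v a hx, gen_of_not_mem ρ N (h⁻¹ * v) a]
      rw [e]
      exact fun h' => hx ((N.mul_mem_cancel_right hh).1 h')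
  · rw [gen_of_ne ρ N v c ha, gen_of_ne ρ N (h⁻¹ * v) c ha]

theorem bd_gen_apply [Fintype α] {β : Type} (P : Matrix α β (MonoidAlgebra ℤ K)) (y : D ⊗[ZMod 2] D) (x : K) (b : β) :
    bd P (gen ρ N v c y) x b =
      ∑ g ∈ (P c b).coeff.support, ((P c b).coeff g : ZMod 2) • gen ρ N (v * g) b y x b := by
  show ∑ a, ∑ g ∈ (P a b).coeff.support, ((P a b).coeff g : ZMod 2) • gen ρ N v c y (x * g⁻¹) a = _
  rw [Finset.sum_eq_single c]
  · refine Finset.sum_congr rfl fun g _ => ?_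
    congr 1
    have e : x * g⁻¹ * v⁻¹ = x * (v * g)⁻¹ := by group
    by_cases hx : x * g⁻¹ * v⁻¹ ∈ N
    · rw [gen_of_mem ρ N v c hx, gen_of_mem ρ N (v * g) b (by rw [← e]; exact hx), e]
    · rw [gen_of_not_mem ρ N v c hx, gen_of_not_mem ρ N (v * g) b (by rw [← e]; exact hx)]
  · intro a _ ha
    refine Finset.sum_eq_zero fun g _ => ?_
    rw [gen_of_ne ρ N v c ha, smul_zero]
  · intro h
    exact absurd (Finset.mem_univ _) h

theorem bd_gen [Fintype α] {β : Type} [Fintype β] (P : Matrix α β (MonoidAlgebra ℤ K)) (y : D ⊗[ZMod 2] D) :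
    bd P (gen ρ N v c y) =
      ∑ b, ∑ g ∈ (P c b).coeff.support, ((P c b).coeff g : ZMod 2) • gen ρ N (v * g) b y := by
  funext x b
  rw [bd_gen_apply, Finset.sum_apply, Finset.sum_apply, Finset.sum_eq_single b]
  · rw [Finset.sum_apply, Finset.sum_apply]
    rfl
  · intro b' _ hb
    rw [Finset.sum_apply, Finset.sum_apply]
    refine Finset.sum_eq_zero fun g _ => ?_
    rw [Pi.smul_apply, Pi.smul_apply, gen_of_ne ρ N (v * g) b' hb.symm, smul_zero]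
  · intro h
    exact absurd (Finset.mem_univ _) h

/-- the boundary commutes with the maps on the values -/
theorem bd_pw {Y Y' : Type} [AddCommGroup Y] [Module (ZMod 2) Y] [AddCommGroup Y'] [Module (ZMod 2) Y'] [Fintype α]
    {β : Type} (P : Matrix α β (MonoidAlgebra ℤ K)) (T : Y →ₗ[ZMod 2] Y') (f : K → α → Y) :
    bd P (pw T f) = pw T (bd P f) := by
  funext x b
  show ∑ a, ∑ g ∈ (P a b).coeff.support, ((P a b).coeff g : ZMod 2) • T (f (x * g⁻¹) a) =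
    T (∑ a, ∑ g ∈ (P a b).coeff.support, ((P a b).coeff g : ZMod 2) • f (x * g⁻¹) a)
  rw [map_sum]
  refine Finset.sum_congr rfl fun a _ => ?_
  rw [map_sum]
  refine Finset.sum_congr rfl fun g _ => ?_
  rw [map_smul]

theorem gen_mem_E {a b : D} (ha : a ∈ cl ρ N) (hb : b ∈ cl ρ N) : gen ρ N v c (a ⊗ₜ[ZMod 2] b) ∈ E ρ N α :=
  Submodule.subset_span ⟨v, c, a, ha, b, hb, rfl⟩

theorem gen_mem_E0 {g h : K} (hg : g ∈ N) (hh : h ∈ N) :
    gen ρ N v c (r ρ g ⊗ₜ[ZMod 2] r ρ h) ∈ E0 ρ N α :=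
  Submodule.subset_span ⟨v, c, g, hg, h, hh, rfl⟩

variable (α) in
theorem E0_le_E : E0 ρ N α ≤ E ρ N α := by
  rw [E0, Submodule.span_le]
  rintro _ ⟨v, c, g, hg, h, hh, rfl⟩
  exact gen_mem_E ρ N v c (r_mem_cl ρ hg) (r_mem_cl ρ hh)

theorem bd_mem_E [Fintype α] {β : Type} [Fintype β] (P : Matrix α β (MonoidAlgebra ℤ K)) {f : K → α → D ⊗[ZMod 2] D}
    (hf : f ∈ E ρ N α) : bd P f ∈ E ρ N β := by
  have h : E ρ N α ≤ (E ρ N β).comap (bd P) := by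
    rw [E, Submodule.span_le]
    rintro _ ⟨v, c, a, ha, b, hb, rfl⟩
    show bd P _ ∈ E ρ N β
    rw [bd_gen]
    exact Submodule.sum_mem _ fun b' _ => Submodule.sum_mem _ fun g _ => Submodule.smul_mem _ _
      (gen_mem_E ρ N _ _ ha hb)
  exact h hf

theorem bd_mem_E0 [Fintype α] {β : Type} [Fintype β] (P : Matrix α β (MonoidAlgebra ℤ K)) {f : K → α → D ⊗[ZMod 2] D}
    (hf : f ∈ E0 ρ N α) : bd P f ∈ E0 ρ N β := by
  have h : E0 ρ N α ≤ (E0 ρ N β).comap (bd P) := by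
    rw [E0, Submodule.span_le]
    rintro _ ⟨v, c, a, ha, b, hb, rfl⟩
    show bd P _ ∈ E0 ρ N β
    rw [bd_gen]
    exact Submodule.sum_mem _ fun b' _ => Submodule.sum_mem _ fun g _ => Submodule.smul_mem _ _
      (gen_mem_E0 ρ N _ _ ha hb)
  exact h hf

end gen

section TT
variable {K : Type} [Group K] {D : Type} [DivisionRing D] [Algebra (ZMod 2) D] {ρ : K →* Dˣ} {κ : D →ₗ[ZMod 2] D}
  {H N : Subgroup K} {t : K}

theorem TT_tmul (j e : ℤ) (a b : D) : TT ρ κ t j e (a ⊗ₜ[ZMod 2] b) =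
    (κ (r ρ (t ^ j) * a)) ⊗ₜ[ZMod 2] (κ (b * r ρ (t ^ (-e)))) := rfl

/-- **row T**, with explicit summation range -/
theorem pw_TT_gen' (hS : Step H N t) (hK : Kap ρ κ H N t) {α : Type} (v : K) (c : α) {a b : D} (ha : a ∈ cl ρ H)
    (hb : b ∈ cl ρ H) (j e : ℤ) (S : Finset ℤ)
    (hSm : ∀ m, m ∉ S → κ (r ρ (t ^ j) * a * r ρ (t ^ (-m))) = 0 ∨ κ (r ρ (t ^ m) * b * r ρ (t ^ (-e))) = 0) :
    pw (TT ρ κ t j e) (gen ρ H v c (a ⊗ₜ[ZMod 2] b)) =
      ∑ m ∈ S, gen ρ N (t ^ m * v) c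
        ((κ (r ρ (t ^ j) * a * r ρ (t ^ (-m)))) ⊗ₜ[ZMod 2] (κ (r ρ (t ^ m) * b * r ρ (t ^ (-e))))) := by
  funext x a'
  rw [Finset.sum_apply, Finset.sum_apply]
  show TT ρ κ t j e (gen ρ H v c (a ⊗ₜ[ZMod 2] b) x a') = _
  by_cases hc : a' = c
  swap
  · rw [gen_of_ne ρ H v c hc, map_zero, Finset.sum_eq_zero]
    intro m _
    rw [gen_of_ne ρ N _ c hc]
  subst hc
  have e1 : ∀ m : ℤ, x * (t ^ m * v)⁻¹ = x * v⁻¹ * t ^ (-m) := fun m => by group
  by_cases hx : x * v⁻¹ ∈ H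
  · rw [gen_of_mem ρ H v a' hx]
    obtain ⟨m1, hm1⟩ := hS.gen _ hx
    have hz : ∀ m, m ≠ m1 → x * (t ^ m * v)⁻¹ ∉ N := by
      intro m hm h
      rw [e1] at h
      exact hm (hS.unique h hm1)
    set n : K := x * v⁻¹ * t ^ (-m1) with hn
    have hw : x * v⁻¹ = n * t ^ m1 := by rw [hn]; group
    have hjH : r ρ (t ^ j) ∈ cl ρ H := r_mem_cl ρ (hS.pow_mem j)
    have hL : TT ρ κ t j e (τ ρ (x * v⁻¹) (a ⊗ₜ[ZMod 2] b)) =
        τ ρ n ((κ (r ρ (t ^ j) * a * r ρ (t ^ (-m1)))) ⊗ₜ[ZMod 2] (κ (r ρ (t ^ m1) * b * r ρ (t ^ (-e))))) := by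
      rw [τ_tmul, TT_tmul, τ_tmul]
      congr 1
      · rw [← hK.right _ (r_mem_cl ρ (N.inv_mem hm1)) _ ((cl ρ H).mul_mem ((cl ρ H).mul_mem hjH ha)
          (r_mem_cl ρ (hS.pow_mem _))), hw, mul_inv_rev, ← zpow_neg, r_mul]
        simp only [mul_assoc]
      · rw [← hK.left _ (r_mem_cl ρ hm1) _ ((cl ρ H).mul_mem ((cl ρ H).mul_mem (r_mem_cl ρ (hS.pow_mem _)) hb)
          (r_mem_cl ρ (hS.pow_mem _))), hw, r_mul]
        simp only [mul_assoc]
    rw [hL]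
    by_cases hmS : m1 ∈ S
    · rw [Finset.sum_eq_single m1]
      · rw [gen_of_mem ρ N _ a' (by rw [e1]; exact hm1), e1]
      · intro m _ hm
        rw [gen_of_not_mem ρ N _ a' (hz m hm)]
      · intro h
        exact absurd hmS h
    · rw [Finset.sum_eq_zero]
      · rcases hSm m1 hmS with h | h
        · rw [h, TensorProduct.zero_tmul, map_zero]
        · rw [h, TensorProduct.tmul_zero, map_zero]
      · intro m hm
        rw [gen_of_not_mem ρ N _ a' (hz m _)]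
        rintro rfl
        exact hmS hm
  · rw [gen_of_not_mem ρ H v a' hx, map_zero, Finset.sum_eq_zero]
    intro m _
    rw [gen_of_not_mem ρ N _ a']
    rw [e1]
    intro h
    exact hx ((H.mul_mem_cancel_right (hS.pow_mem _)).1 (hS.le h))

/-- a summation range -/
theorem exists_range (hS : Step H N t) (hK : Kap ρ κ H N t) {a b : D} (ha : a ∈ cl ρ H) (hb : b ∈ cl ρ H) (j e : ℤ) :
    ∃ S : Finset ℤ, ∀ m, m ∉ S → κ (r ρ (t ^ j) * a * r ρ (t ^ (-m))) = 0 ∨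
      κ (r ρ (t ^ m) * b * r ρ (t ^ (-e))) = 0 := by
  obtain ⟨M1, h1⟩ := hK.bdd _ ((cl ρ H).mul_mem (r_mem_cl ρ (hS.pow_mem j)) ha)
  obtain ⟨M2, h2⟩ := hK.bdd _ hb
  refine ⟨Finset.Icc M1 (e - M2), fun m hm => ?_⟩
  by_cases hm1 : m < M1
  · exact Or.inl (h1 m hm1)
  · have hm2 : e - m < M2 := by
      by_contra h3
      exact hm (Finset.mem_Icc.2 ⟨by omega, by omega⟩)
    refine Or.inr ?_
    have h4 := hK.conj (t ^ m) (b * r ρ (t ^ (-(e - m)))) ((cl ρ H).mul_mem hb (r_mem_cl ρ (hS.pow_mem _)))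
    have h5 : r ρ (t ^ m) * (b * r ρ (t ^ (-(e - m)))) * r ρ (t ^ m)⁻¹ = r ρ (t ^ m) * b * r ρ (t ^ (-e)) := by
      rw [← zpow_neg, mul_assoc, mul_assoc b, ← r_mul, ← zpow_add, ← mul_assoc]
      congr 3
      ring
    rw [h5, h2 _ hm2, mul_zero, zero_mul] at h4
    exact h4

/-- **row T** -/
theorem pw_TT_gen (hS : Step H N t) (hK : Kap ρ κ H N t) {α : Type} (v : K) (c : α) {a b : D} (ha : a ∈ cl ρ H)
    (hb : b ∈ cl ρ H) (j e : ℤ) : ∃ S : Finset ℤ,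
    pw (TT ρ κ t j e) (gen ρ H v c (a ⊗ₜ[ZMod 2] b)) =
      ∑ m ∈ S, gen ρ N (t ^ m * v) c
        ((κ (r ρ (t ^ j) * a * r ρ (t ^ (-m)))) ⊗ₜ[ZMod 2] (κ (r ρ (t ^ m) * b * r ρ (t ^ (-e))))) := by
  obtain ⟨S, h⟩ := exists_range hS hK ha hb j e
  exact ⟨S, pw_TT_gen' hS hK v c ha hb j e S h⟩

theorem pw_TT_mem_E (hS : Step H N t) (hK : Kap ρ κ H N t) {α : Type} (j e : ℤ) {f : K → α → D ⊗[ZMod 2] D}
    (hf : f ∈ E ρ H α) : pw (TT ρ κ t j e) f ∈ E ρ N α := by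
  have h : E ρ H α ≤ (E ρ N α).comap (pw (TT ρ κ t j e)) := by
    rw [E, Submodule.span_le]
    rintro _ ⟨v, c, a, ha, b, hb, rfl⟩
    show pw (TT ρ κ t j e) _ ∈ E ρ N α
    obtain ⟨S, h⟩ := pw_TT_gen hS hK v c ha hb j e
    rw [h]
    exact Submodule.sum_mem _ fun m _ => gen_mem_E ρ N _ _
      (hK.mem _ ((cl ρ H).mul_mem ((cl ρ H).mul_mem (r_mem_cl ρ (hS.pow_mem _)) ha) (r_mem_cl ρ (hS.pow_mem _))))
      (hK.mem _ ((cl ρ H).mul_mem ((cl ρ H).mul_mem (r_mem_cl ρ (hS.pow_mem _)) hb) (r_mem_cl ρ (hS.pow_mem _))))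
  exact h hf

/-- the coefficients of a monomial -/
theorem κ_mono (hS : Step H N t) (hK : Kap ρ κ H N t) {g : K} (hg : g ∈ H) :
    (g ∈ N ∧ κ (r ρ g) = r ρ g) ∨ κ (r ρ g) = 0 := by
  obtain ⟨m, hm⟩ := hS.gen g hg
  have e1 : r ρ g = r ρ (g * t ^ (-m)) * r ρ (t ^ m) := by
    rw [← r_mul]
    congr 1
    group
  have e2 : κ (r ρ g) = r ρ (g * t ^ (-m)) * κ (r ρ (t ^ m)) := by
    conv_lhs => rw [e1]
    rw [hK.left _ (r_mem_cl ρ hm) _ (r_mem_cl ρ (hS.pow_mem m))]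
  by_cases h0 : m = 0
  · subst h0
    rw [neg_zero, zpow_zero, mul_one] at hm
    rw [neg_zero, zpow_zero, mul_one, r_one, hK.one, mul_one] at e2
    exact Or.inl ⟨hm, e2⟩
  · rw [hK.pow m h0, mul_zero] at e2
    exact Or.inr e2

theorem pw_TT_mem_E0 (hS : Step H N t) (hK : Kap ρ κ H N t) {α : Type} (j e : ℤ) {f : K → α → D ⊗[ZMod 2] D}
    (hf : f ∈ E0 ρ H α) : pw (TT ρ κ t j e) f ∈ E0 ρ N α := by
  have h : E0 ρ H α ≤ (E0 ρ N α).comap (pw (TT ρ κ t j e)) := by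
    rw [E0, Submodule.span_le]
    rintro _ ⟨v, c, g, hg, g', hg', rfl⟩
    show pw (TT ρ κ t j e) _ ∈ E0 ρ N α
    obtain ⟨S, h⟩ := pw_TT_gen hS hK v c (r_mem_cl ρ hg) (r_mem_cl ρ hg') j e
    rw [h]
    refine Submodule.sum_mem _ fun m _ => ?_
    rw [← r_mul, ← r_mul, ← r_mul, ← r_mul]
    have h1 : t ^ j * g * t ^ (-m) ∈ H := H.mul_mem (H.mul_mem (hS.pow_mem _) hg) (hS.pow_mem _)
    have h2 : t ^ m * g' * t ^ (-e) ∈ H := H.mul_mem (H.mul_mem (hS.pow_mem _) hg') (hS.pow_mem _)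
    rcases κ_mono hS hK h1 with ⟨h3, h4⟩ | h3
    · rcases κ_mono hS hK h2 with ⟨h5, h6⟩ | h5
      · rw [h4, h6]
        exact gen_mem_E0 ρ N _ _ h3 h5
      · rw [h5, TensorProduct.tmul_zero, gen_zero]
        exact Submodule.zero_mem _
    · rw [h3, TensorProduct.zero_tmul, gen_zero]
      exact Submodule.zero_mem _
  exact h hf

end TT

end RT3
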